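import Pool.Agent.H17.MCG.Final

/-!
# Locally finite higher maximal cofinitary groups

For every regular uncountable cardinal `κ` with `κ ^{<κ} = κ` there is a non-empty `<κ`-closed
poset `P` forcing that `Sym(κ)` contains a locally finite `κ`-maximal cofinitary group.

The definitions used in the statement are in `Pool.Agent.H17.MCG.Forcing`.
-/

open Cardinal Pool.Agent.H17MCG

universe u

namespace Pool.Agent.Results.MP_a8709a_lc.LocallyFiniteMCG

/-- Let `κ` be a regular uncountable cardinal with `κ ^{<κ} = κ`.  There is a non-empty poset `P`,
in which every chain of size less than `κ` has a lower bound, and a family `g i` (`i : I`) of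
`P`-names for permutations of `κ`, forced (by every condition) to be a locally finite
`κ`-cofinitary group such that every permutation of `κ` in the extension agrees with some element of
the group at unboundedly many points; and the group is forced to be `κ`-maximal cofinitary. -/
theorem result (κ : Cardinal.{u}) (hreg : κ.IsRegular) (hunc : ℵ₀ < κ) (hpow : κ ^< κ = κ) :
    ∃ (P : Type u) (_ : Preorder P) (I : Type u) (g : I → PermName P κ.ord.ToType),
      Nonempty P ∧ IsLTClosed κ P ∧ ∀ p, ForcesCofinitaryGroup p g ∧ ForcesLocallyFinite p g ∧
        ForcesAllAgree p g ∧ ForcesMaximal p g :=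
  main κ hreg hunc hpow

end Pool.Agent.Results.MP_a8709a_lc.LocallyFiniteMCG
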